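import Pool.Agent.Helper66.HK.Stmts

/-! FLO: the floors. -/

namespace Pool.Agent.Helper66.HK

open Finset Pool.Agent.Helper69.RK

noncomputable section

theorem flo_ediv_add (u v : ℤ) (k : ℕ) :
    u / (2 : ℤ) ^ k + v / (2 : ℤ) ^ k ≤ (u + v) / (2 : ℤ) ^ k ∧
      (u + v) / (2 : ℤ) ^ k ≤ u / (2 : ℤ) ^ k + v / (2 : ℤ) ^ k + 1 := by
  have hp : (0 : ℤ) < 2 ^ k := by positivity
  set p : ℤ := 2 ^ k with hpdef
  have hu := Int.emod_add_mul_ediv u p
  have hv := Int.emod_add_mul_ediv v p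
  have hu0 := Int.emod_nonneg u hp.ne'
  have hv0 := Int.emod_nonneg v hp.ne'
  have hu1 := Int.emod_lt_of_pos u hp
  have hv1 := Int.emod_lt_of_pos v hp
  constructor
  · rw [Int.le_ediv_iff_mul_le hp]
    nlinarith
  · have : (u + v) / p < u / p + v / p + 2 := by
      rw [Int.ediv_lt_iff_lt_mul hp]
      nlinarith
    omega

theorem flo_cel_dv {m : ℕ} (n l : ℕ) (h : l ≤ n) (y : Fin m → ℝ) :
    dv (n - l) (cel n y) = cel l y := by
  funext i
  unfold dv cel
  have h1 : ((2 : ℤ) ^ (n - l)) = ((2 ^ (n - l) : ℕ) : ℤ) := by push_cast; rfl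
  rw [h1, ← Int.floor_div_natCast]
  congr 1
  push_cast
  have h2 : (2 : ℝ) ^ n = 2 ^ l * 2 ^ (n - l) := by
    rw [← pow_add]
    congr 1
    omega
  rw [h2]
  field_simp

theorem flo_dv_dv {m : ℕ} (k k' : ℕ) (v : Fin m → ℤ) : dv k (dv k' v) = dv (k + k') v := by
  funext i
  unfold dv
  rw [Int.ediv_ediv_of_nonneg (by positivity), ← pow_add, add_comm]

/-- values of `f` given `R` and `h` are at most one apart -/
theorem flo_near (E1 : ST_E1) (E2 : ST_E2) (E3 : ST_E3) {Ω ρ β : Type} [Fintype Ω] {m : ℕ} (μ : Ω → ℝ)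
    (h0 : ∀ ω, 0 ≤ μ ω) (h1 : mass μ = 1) (f : Ω → Fin m → ℤ) (h : Ω → β) (R : Ω → ρ)
    (hn : ∀ ω ω', μ ω ≠ 0 → μ ω' ≠ 0 → R ω = R ω' → h ω = h ω' → ∀ i, |f ω i - f ω' i| ≤ 1) :
    CH μ f R ≤ CH μ h R + m := by
  have e1 := (E1 Ω β (Fin m → ℤ) ρ μ h f R h0).2.1
  have e2 : CH μ f R ≤ CH μ (fun ω => (h ω, f ω)) R := by
    refine E2.1 Ω _ _ _ μ _ _ _ h0 ?_
    intro ω ω' _ _ he
    simp only [Prod.mk.injEq] at he
    exact he.1.2
  have e3 : CH μ f (fun ω => (h ω, R ω)) ≤ m * Real.logb 2 (1 + 1) * mass μ := by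
    refine E3.2 Ω _ m μ f _ 1 h0 (by norm_num) ?_
    intro ω ω' hω hω' he i
    simp only [Prod.mk.injEq] at he
    have := hn ω ω' hω hω' he.2 he.1 i
    exact_mod_cast this
  have e4 : Real.logb 2 (1 + 1) = 1 := by norm_num
  rw [h1, e4] at e3
  linarith

theorem flo_logb_le (K : ℝ) (j : ℕ) (hK : 0 ≤ K) (h : K + 1 ≤ 2 ^ j) : Real.logb 2 (K + 1) ≤ j := by
  rw [Real.logb_le_iff_le_rpow (by norm_num) (by linarith)]
  rw [Real.rpow_natCast]
  exact h

theorem st_FLO (E1 : ST_E1) (E2 : ST_E2) (E3 : ST_E3) : ST_FLO := by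
  intro m n l w Ω κ _ μ Q a x t t' Λ Λ' h0 h1 hlw hab hxb hQ htt ht
  have hpos : ∀ k : ℕ, (0 : ℝ) < 2 ^ k := fun k => by positivity
  -- dv of Y
  have hY : ∀ (s : ℝ) (ω : Ω) (V : Fin m → ℤ) (k : ℕ), k ≤ n → ∀ i,
      cel k (Yt s (a ω) (x ω)) i + V i / (2 : ℤ) ^ (n - k) ≤
          dv (n - k) (Yn n s (a ω) (x ω) V) i ∧
        dv (n - k) (Yn n s (a ω) (x ω) V) i ≤
          cel k (Yt s (a ω) (x ω)) i + V i / (2 : ℤ) ^ (n - k) + 1 := by
    intro s ω V k hk i
    have e := flo_ediv_add (cel n (Yt s (a ω) (x ω)) i) (V i) (n - k)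
    have e2 := congrFun (flo_cel_dv n k hk (Yt s (a ω) (x ω))) i
    unfold dv at e2
    rw [e2] at e
    unfold dv Yn
    simp only [Pi.add_apply]
    exact e
  have hdl : ∀ ω i, Λ ω i / (2 : ℤ) ^ (n - l) =
      (Λ ω i / (2 : ℤ) ^ (n - (l + w))) / (2 : ℤ) ^ w := by
    intro ω i
    rw [Int.ediv_ediv_of_nonneg (by positivity), ← pow_add]
    congr 2
    omega
  have hcell : ∀ (k : ℕ) (y : Fin m → ℝ) i, (cel k y i : ℝ) ≤ 2 ^ k * y i ∧
      2 ^ k * y i < (cel k y i : ℝ) + 1 := by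
    intro k y i
    unfold cel
    exact ⟨Int.floor_le _, Int.lt_floor_add_one _⟩
  have hJ : (2 : ℝ) ^ (l + w) = 2 ^ l * 2 ^ w := pow_add _ _ _
  refine ⟨?_, ?_, ?_, ?_⟩
  · -- (1)
    have e3 := E3.2 Ω _ m μ (fun ω => dv (n - (l + w)) (Yn n (t' ω) (a ω) (x ω) (Λ' ω)) -
          dv (n - (l + w)) (Yn n (t ω) (a ω) (x ω) (Λ ω)))
        (fun ω => ((dv (n - (l + w)) (Λ ω), dv (n - (l + w)) (Λ' ω)), xi l (a ω) (x ω), Q ω)) 5 h0
        (by norm_num) ?_
    · have e4 := flo_logb_le 5 4 (by norm_num) (by norm_num)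
      rw [h1, mul_one] at e3
      refine e3.trans ?_
      have hm : (0 : ℝ) ≤ m := Nat.cast_nonneg m
      have := mul_le_mul_of_nonneg_left e4 hm
      push_cast at this
      linarith
    · intro ω ω' hω hω' he i
      simp only [Prod.mk.injEq] at he
      obtain ⟨⟨hΛ, hΛ'⟩, hxi, hq⟩ := he
      have htq := hQ ω ω' hω hω' hq
      simp only [Prod.mk.injEq] at htq
      obtain ⟨ht1, ht2⟩ := htq
      have hL := congrFun hΛ i
      have hL' := congrFun hΛ' i
      unfold dv at hL hL'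
      have hx : cel l (x ω) i = cel l (x ω') i := by
        have := congrArg Prod.snd hxi
        exact congrFun this i
      -- bounds
      have b1 := hY (t' ω) ω (Λ' ω) (l + w) hlw i
      have b2 := hY (t ω) ω (Λ ω) (l + w) hlw i
      have b3 := hY (t' ω') ω' (Λ' ω') (l + w) hlw i
      have b4 := hY (t ω') ω' (Λ ω') (l + w) hlw i
      have c1 := hcell (l + w) (Yt (t' ω) (a ω) (x ω)) i
      have c2 := hcell (l + w) (Yt (t ω) (a ω) (x ω)) i
      have c3 := hcell (l + w) (Yt (t' ω') (a ω') (x ω')) i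
      have c4 := hcell (l + w) (Yt (t ω') (a ω') (x ω')) i
      have d1 := hcell l (x ω) i
      have d2 := hcell l (x ω') i
      -- increments
      have k1 : 2 ^ (l + w) * Yt (t' ω) (a ω) (x ω) i - 2 ^ (l + w) * Yt (t ω) (a ω) (x ω) i =
          (2 ^ w * (t' ω - t ω)) * (2 ^ l * x ω i) := by
        unfold Yt
        rw [hJ]
        ring
      have k2 : 2 ^ (l + w) * Yt (t' ω') (a ω') (x ω') i -
          2 ^ (l + w) * Yt (t ω') (a ω') (x ω') i =
          (2 ^ w * (t' ω - t ω)) * (2 ^ l * x ω' i) := by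
        unfold Yt
        rw [hJ, ht1, ht2]
        ring
      have hs : |(2 : ℝ) ^ w * (t' ω - t ω)| ≤ 1 := by
        have := htt ω hω
        rw [abs_mul, abs_of_pos (hpos w), abs_sub_comm, mul_comm]
        exact this
      set s : ℝ := 2 ^ w * (t' ω - t ω) with hsdef
      have hff : |s * (2 ^ l * x ω i) - s * (2 ^ l * x ω' i)| ≤ 1 := by
        rw [← mul_sub, abs_mul]
        have hd : |2 ^ l * x ω i - 2 ^ l * x ω' i| ≤ 1 := by
          rw [abs_le]
          have hxr : (cel l (x ω) i : ℝ) = cel l (x ω') i := by rw [hx]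
          constructor <;> linarith [d1.1, d1.2, d2.1, d2.2]
        calc |s| * |2 ^ l * x ω i - 2 ^ l * x ω' i| ≤ 1 * 1 :=
              mul_le_mul hs hd (abs_nonneg _) (by norm_num)
          _ = 1 := by norm_num
      rw [abs_le] at hff
      simp only [Pi.sub_apply]
      rw [hL, ] at b2
      rw [hL'] at b1
      set A1 := dv (n - (l + w)) (Yn n (t' ω) (a ω) (x ω) (Λ' ω)) i
      set A2 := dv (n - (l + w)) (Yn n (t ω) (a ω) (x ω) (Λ ω)) i
      set A3 := dv (n - (l + w)) (Yn n (t' ω') (a ω') (x ω') (Λ' ω')) i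
      set A4 := dv (n - (l + w)) (Yn n (t ω') (a ω') (x ω') (Λ ω')) i
      set C1 := cel (l + w) (Yt (t' ω) (a ω) (x ω)) i
      set C2 := cel (l + w) (Yt (t ω) (a ω) (x ω)) i
      set C3 := cel (l + w) (Yt (t' ω') (a ω') (x ω')) i
      set C4 := cel (l + w) (Yt (t ω') (a ω') (x ω')) i
      have q1 : (C1 : ℝ) - C2 - (C3 - C4) < 4 := by
        linarith [c1.1, c1.2, c2.1, c2.2, c3.1, c3.2, c4.1, c4.2, hff.1, hff.2]
      have q2 : -4 < (C1 : ℝ) - C2 - (C3 - C4) := by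
        linarith [c1.1, c1.2, c2.1, c2.2, c3.1, c3.2, c4.1, c4.2, hff.1, hff.2]
      have q3 : C1 - C2 - (C3 - C4) < 4 := by exact_mod_cast q1
      have q4 : -4 < C1 - C2 - (C3 - C4) := by exact_mod_cast q2
      have q5 : |A1 - A2 - (A3 - A4)| ≤ 5 := by
        rw [abs_le]
        constructor <;> omega
      exact_mod_cast q5
  · -- (2)
    have e3 := E3.2 Ω _ m μ (fun ω => dv (n - l) (Yn n (t ω) (a ω) (x ω) (Λ ω)))
        (fun ω => (dv (n - (l + w)) (Λ ω), xi l (a ω) (x ω), Q ω)) 3 h0 (by norm_num) ?_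
    · have e4 := flo_logb_le 3 2 (by norm_num) (by norm_num)
      rw [h1, mul_one] at e3
      refine e3.trans ?_
      have hm : (0 : ℝ) ≤ m := Nat.cast_nonneg m
      have := mul_le_mul_of_nonneg_left e4 hm
      push_cast at this
      linarith
    · intro ω ω' hω hω' he i
      simp only [Prod.mk.injEq] at he
      obtain ⟨hΛ, hxi, hq⟩ := he
      have htq := hQ ω ω' hω hω' hq
      simp only [Prod.mk.injEq] at htq
      obtain ⟨ht1, ht2⟩ := htq
      have hL := congrFun hΛ i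
      unfold dv at hL
      have hx : cel l (x ω) i = cel l (x ω') i := congrFun (congrArg Prod.snd hxi) i
      have ha : cel l (a ω) i = cel l (a ω') i := congrFun (congrArg Prod.fst hxi) i
      have hxr : (cel l (x ω) i : ℝ) = cel l (x ω') i := by rw [hx]
      have har : (cel l (a ω) i : ℝ) = cel l (a ω') i := by rw [ha]
      have b2 := hY (t ω) ω (Λ ω) l (by omega) i
      have b4 := hY (t ω') ω' (Λ ω') l (by omega) i
      have c2 := hcell l (Yt (t ω) (a ω) (x ω)) i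
      have c4 := hcell l (Yt (t ω') (a ω') (x ω')) i
      have d1 := hcell l (x ω) i
      have d2 := hcell l (x ω') i
      have f1 := hcell l (a ω) i
      have f2 := hcell l (a ω') i
      rw [hdl, hL, ← hdl] at b2
      have k1 : 2 ^ l * Yt (t ω) (a ω) (x ω) i = 2 ^ l * a ω i + t ω * (2 ^ l * x ω i) := by
        unfold Yt
        ring
      have k2 : 2 ^ l * Yt (t ω') (a ω') (x ω') i =
          2 ^ l * a ω' i + t ω * (2 ^ l * x ω' i) := by
        unfold Yt
        rw [ht1]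
        ring
      have hff : |t ω * (2 ^ l * x ω i) - t ω * (2 ^ l * x ω' i)| ≤ 1 := by
        rw [← mul_sub, abs_mul]
        have hd : |2 ^ l * x ω i - 2 ^ l * x ω' i| ≤ 1 := by
          rw [abs_le]
          constructor <;> linarith [d1.1, d1.2, d2.1, d2.2]
        have hs : |t ω| ≤ 1 := by
          rw [abs_of_nonneg (ht ω).1]
          exact (ht ω).2.le
        calc |t ω| * |2 ^ l * x ω i - 2 ^ l * x ω' i| ≤ 1 * 1 :=
              mul_le_mul hs hd (abs_nonneg _) (by norm_num)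
          _ = 1 := by norm_num
      rw [abs_le] at hff
      set A2 := dv (n - l) (Yn n (t ω) (a ω) (x ω) (Λ ω)) i
      set A4 := dv (n - l) (Yn n (t ω') (a ω') (x ω') (Λ ω')) i
      set C2 := cel l (Yt (t ω) (a ω) (x ω)) i
      set C4 := cel l (Yt (t ω') (a ω') (x ω')) i
      have q1 : (C2 : ℝ) - C4 < 3 := by
        linarith [c2.1, c2.2, c4.1, c4.2, hff.1, hff.2, f1.1, f1.2, f2.1, f2.2]
      have q2 : -3 < (C2 : ℝ) - C4 := by
        linarith [c2.1, c2.2, c4.1, c4.2, hff.1, hff.2, f1.1, f1.2, f2.1, f2.2]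
      have q3 : C2 - C4 < 3 := by exact_mod_cast q1
      have q4 : -3 < C2 - C4 := by exact_mod_cast q2
      have q5 : |A2 - A4| ≤ 3 := by
        rw [abs_le]
        constructor <;> omega
      exact_mod_cast q5
  · -- (3)
    intro ρ R hR
    rw [abs_le]
    have n1 := flo_near E1 E2 E3 μ h0 h1 (fun ω => dv (n - (l + w)) (Yn n (t ω) (a ω) (x ω) (Λ ω)))
      (fun ω => cel (l + w) (Yt (t ω) (a ω) (x ω))) R ?_
    · have n2 := flo_near E1 E2 E3 μ h0 h1 (fun ω => cel (l + w) (Yt (t ω) (a ω) (x ω)))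
        (fun ω => dv (n - (l + w)) (Yn n (t ω) (a ω) (x ω) (Λ ω))) R ?_
      · constructor <;> linarith
      · intro ω ω' hω hω' hr hh i
        have hL : Λ ω i / (2 : ℤ) ^ (n - (l + w)) = Λ ω' i / (2 : ℤ) ^ (n - (l + w)) :=
          congrFun (hR ω ω' hω hω' hr) i
        have b2 := hY (t ω) ω (Λ ω) (l + w) hlw i
        have b4 := hY (t ω') ω' (Λ ω') (l + w) hlw i
        have hh' := congrFun hh i
        rw [hL] at b2
        rw [abs_le]
        constructor <;> omega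
    · intro ω ω' hω hω' hr hh i
      have hL : Λ ω i / (2 : ℤ) ^ (n - (l + w)) = Λ ω' i / (2 : ℤ) ^ (n - (l + w)) :=
        congrFun (hR ω ω' hω hω' hr) i
      have b2 := hY (t ω) ω (Λ ω) (l + w) hlw i
      have b4 := hY (t ω') ω' (Λ ω') (l + w) hlw i
      have hh' := congrFun hh i
      rw [hL] at b2
      rw [abs_le]
      constructor <;> omega
  · -- (4)
    intro ρ R A hR
    refine flo_near E1 E2 E3 μ h0 h1 _ _ R ?_
    intro ω ω' hω hω' hr hh i
    have hL : Λ ω i / (2 : ℤ) ^ (n - (l + w)) = Λ ω' i / (2 : ℤ) ^ (n - (l + w)) :=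
      congrFun (hR ω ω' hω hω' hr) i
    have b2 := hY (t ω) ω (Λ ω) (l + w) hlw i
    have b4 := hY (t ω') ω' (Λ ω') (l + w) hlw i
    have hh' := congrFun hh i
    simp only [Pi.add_apply] at hh'
    rw [hL] at b2
    have g1 : Yn (l + w) (t ω) (a ω) (x ω) (A ω) i =
        cel (l + w) (Yt (t ω) (a ω) (x ω)) i + A ω i := rfl
    have g2 : Yn (l + w) (t ω') (a ω') (x ω') (A ω') i =
        cel (l + w) (Yt (t ω') (a ω') (x ω')) i + A ω' i := rfl
    rw [g1, g2, abs_le]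
    constructor <;> omega

end

end Pool.Agent.Helper66.HK
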