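import Pool.Agent.Helper66.HK.Stmts

/-! KV: sums of conditionally independent copies. -/

namespace Pool.Agent.Helper66.HK

open Finset Pool.Agent.Helper69.RK

noncomputable section

section basics

variable {Ω : Type} [Fintype Ω] {μ : Ω → ℝ}

/-- symmetry of the mutual information -/
theorem kv_symm (E1 : ST_E1) (E2 : ST_E2) (h0 : ∀ ω, 0 ≤ μ ω) {α β γ : Type} (f : Ω → α) (h : Ω → β)
    (g : Ω → γ) : MI μ f h g = MI μ h f g := by
  have a1 := (E1 Ω α β γ μ f h g h0).2.1
  have a2 := (E1 Ω β α γ μ h f g h0).2.1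
  have a3 : CH μ (fun ω => (f ω, h ω)) g ≤ CH μ (fun ω => (h ω, f ω)) g := by
    refine E2.1 Ω _ _ _ μ _ _ _ h0 ?_
    intro ω ω' _ _ he
    simp only [Prod.mk.injEq] at he ⊢
    exact ⟨he.1.2, he.1.1⟩
  have a4 : CH μ (fun ω => (h ω, f ω)) g ≤ CH μ (fun ω => (f ω, h ω)) g := by
    refine E2.1 Ω _ _ _ μ _ _ _ h0 ?_
    intro ω ω' _ _ he
    simp only [Prod.mk.injEq] at he ⊢
    exact ⟨he.1.2, he.1.1⟩
  unfold MI
  linarith

/-- data processing -/
theorem kv_dp (E1 : ST_E1) (E2 : ST_E2) (h0 : ∀ ω, 0 ≤ μ ω) {α α' β γ : Type} (f : Ω → α)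
    (f' : Ω → α') (h : Ω → β) (g : Ω → γ) (hd : Dep μ (fun ω => (f' ω, g ω)) f) :
    MI μ f h g ≤ MI μ f' h g := by
  have a1 := (E1 Ω α α' γ μ f f' g h0).2.1
  have a2 := (E1 Ω α α' (β × γ) μ f f' (fun ω => (h ω, g ω)) h0).2.1
  have a3 : CH μ (fun ω => (f ω, f' ω)) g ≤ CH μ f' g := by
    refine E2.1 Ω _ _ _ μ _ _ _ h0 ?_
    intro ω ω' h1 h2 he
    simp only [Prod.mk.injEq] at he ⊢
    exact ⟨hd ω ω' h1 h2 (by simp only [Prod.mk.injEq]; exact he), he.1⟩
  have a4 : CH μ f' (fun ω => (h ω, g ω)) ≤ CH μ (fun ω => (f ω, f' ω)) (fun ω => (h ω, g ω)) := by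
    refine E2.1 Ω _ _ _ μ _ _ _ h0 ?_
    intro ω ω' h1 h2 he
    simp only [Prod.mk.injEq] at he ⊢
    exact he.1.2
  have a5 : CH μ f' (fun ω => (f ω, h ω, g ω)) ≤ CH μ f' (fun ω => (f ω, g ω)) := by
    refine E2.2.1 Ω _ _ _ μ _ _ _ h0 ?_
    intro ω ω' h1 h2 he
    simp only [Prod.mk.injEq] at he ⊢
    exact ⟨he.1, he.2.2⟩
  unfold MI
  linarith

/-- subadditivity -/
theorem kv_sub (E1 : ST_E1) (E2 : ST_E2) (h0 : ∀ ω, 0 ≤ μ ω) {α γ ι : Type} (F : Finset ι)
    (f : ι → Ω → α) (g : Ω → γ) :
    CH μ (fun w => fun i : F => f i w) g ≤ ∑ i ∈ F, CH μ (f i) g := by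
  classical
  induction F using Finset.induction_on with
  | empty =>
    rw [Finset.sum_empty]
    refine le_of_eq (E2.2.2 Ω _ _ μ _ _ h0 ?_)
    intro ω ω' _ _ _
    funext i
    exact absurd i.2 (Finset.notMem_empty _)
  | insert a F ha ih =>
    rw [Finset.sum_insert ha]
    have a1 := (E1 Ω α ((i : F) → α) γ μ (f a) (fun w => fun i : F => f i w) g h0).2
    have a2 := a1.1
    have a3 := (E1 Ω ((i : F) → α) α γ μ (fun w => fun i : F => f i w) (f a) g h0).2.2
    have a4 : CH μ (fun w => fun i : ((insert a F : Finset ι) : Type) => f i w) g ≤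
        CH μ (fun w => (f a w, fun i : F => f i w)) g := by
      refine E2.1 Ω _ _ _ μ _ _ _ h0 ?_
      intro ω ω' _ _ he
      simp only [Prod.mk.injEq] at he
      funext i
      rcases Finset.mem_insert.1 i.2 with hi | hi
      · show f i.1 ω = f i.1 ω'
        rw [hi]
        exact he.1.1
      · exact congrFun he.1.2 ⟨i.1, hi⟩
    linarith

end basics

theorem st_KV (E1 : ST_E1) (E2 : ST_E2) (E5 : ST_E5) : ST_KV := by
  classical
  intro Ω Ω' 𝔾 γ κ ξ ι _ _ _ μ μ' π K c X Λ B r0 F h0 hI hKc hKΛ hB hF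
  have h0' := hI.nn
  -- push forward
  have hpush : ∀ (α β : Type) (f : Ω → α) (g : Ω → β) (r : ι),
      CH μ' (fun w => f (π r w)) (fun w => g (π r w)) = CH μ f g := by
    intro α β f g r
    have := (E5.1 Ω Ω' α β μ' (π r) f g h0').2.2
    rw [hI.pu r] at this
    exact this.symm
  -- transfer of functions of K
  have htr : ∀ (β : Type) (g : Ω → β), Dep μ K g → ∀ w, μ' w ≠ 0 → ∀ r, g (π r w) = g (π r0 w) := by
    intro β g hg w hw r
    exact hg _ _ (hI.su w hw r) (hI.su w hw r0) (hI.eq w hw r r0)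
  have hc := htr γ c hKc
  have hΛ := htr 𝔾 Λ hKΛ
  set h1 : ℝ := CH μ (fun ω => Λ ω + B ω) c with hh1
  set h2 : ℝ := CH μ Λ (fun ω => (X ω, c ω)) with hh2
  set I0 : ℝ := MI μ X K c with hI0
  have hI0n : 0 ≤ I0 := by
    have := (E1 Ω ξ κ γ μ X K c h0).2.2
    rw [hI0]
    unfold MI
    linarith
  have h12 : h2 ≤ h1 := by
    have a1 := (E1 Ω 𝔾 ξ γ μ (fun ω => Λ ω + B ω) X c h0).2.2
    have a2 : h2 ≤ CH μ (fun ω => Λ ω + B ω) (fun ω => (X ω, c ω)) := by
      refine E2.1 Ω _ _ _ μ _ _ _ h0 ?_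
      intro ω ω' g1 g2 he
      simp only [Prod.mk.injEq] at he
      have := hB ω ω' g1 g2 (by simp only [Prod.mk.injEq]; exact he.2)
      have e := he.1
      rw [this] at e
      exact add_right_cancel e
    linarith
  -- conditioning on c (π r0) and c (π r)
  have hcond : ∀ (α : Type) (f : Ω' → α) (r : ι),
      CH μ' f (fun w => c (π r w)) = CH μ' f (fun w => c (π r0 w)) := by
    intro α f r
    apply le_antisymm
    · refine E2.2.1 Ω' _ _ _ μ' _ _ _ h0' ?_
      intro w w' g1 g2 he
      show c (π r0 w) = c (π r0 w')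
      rw [← hc w g1 r, ← hc w' g2 r]
      exact he
    · refine E2.2.1 Ω' _ _ _ μ' _ _ _ h0' ?_
      intro w w' g1 g2 he
      show c (π r w) = c (π r w')
      rw [hc w g1 r, hc w' g2 r]
      exact he
  -- the sums
  have hone : ∀ r : ι, CH μ' (fun w => Λ (π r0 w) + B (π r w)) (fun w => c (π r0 w)) = h1 := by
    intro r
    rw [hh1, ← hpush _ _ (fun ω => Λ ω + B ω) c r, hcond _ _ r]
    apply le_antisymm
    · refine E2.1 Ω' _ _ _ μ' _ _ _ h0' ?_
      intro w w' g1 g2 he
      simp only [Prod.mk.injEq] at he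
      show Λ (π r0 w) + B (π r w) = Λ (π r0 w') + B (π r w')
      rw [← hΛ w g1 r, ← hΛ w' g2 r]
      exact he.1
    · refine E2.1 Ω' _ _ _ μ' _ _ _ h0' ?_
      intro w w' g1 g2 he
      simp only [Prod.mk.injEq] at he
      show Λ (π r w) + B (π r w) = Λ (π r w') + B (π r w')
      rw [hΛ w g1 r, hΛ w' g2 r]
      exact he.1
  -- the main claim
  have main : ∀ F : Finset ι, F.Nonempty →
      CH μ' (fun w => Λ (π r0 w) + ∑ r ∈ F, B (π r w)) (fun w => c (π r0 w)) ≤
        h1 + ((F.card : ℝ) - 1) * ((h1 - h2) + F.card * I0) := by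
    intro F hF
    induction hF using Finset.Nonempty.cons_induction with
    | singleton a =>
      simp only [Finset.sum_singleton, Finset.card_singleton, Nat.cast_one, sub_self, zero_mul,
        add_zero]
      exact (hone a).le
    | cons r F hr hF ih =>
      -- abbreviations
      let S : Ω' → 𝔾 := fun w => Λ (π r0 w) + ∑ i ∈ F, B (π i w)
      let S' : Ω' → 𝔾 := fun w => Λ (π r0 w) + ∑ i ∈ Finset.cons r F hr, B (π i w)
      let Br : Ω' → 𝔾 := fun w => B (π r w)
      let T : Ω' → 𝔾 := fun w => Λ (π r0 w) + B (π r w)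
      let c' : Ω' → γ := fun w => c (π r0 w)
      let V : Ω' → (F → 𝔾) := fun w => fun i : F => B (π i w)
      have hS' : ∀ w, S' w = S w + Br w := by
        intro w
        show Λ (π r0 w) + ∑ i ∈ Finset.cons r F hr, B (π i w) =
          Λ (π r0 w) + ∑ i ∈ F, B (π i w) + B (π r w)
        rw [Finset.sum_cons]
        abel
      have hS'2 : ∀ w, S' w = T w + ∑ i : F, V w i := by
        intro w
        rw [hS' w]
        show Λ (π r0 w) + ∑ i ∈ F, B (π i w) + B (π r w) =
          Λ (π r0 w) + B (π r w) + ∑ i : F, B (π i w)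
        rw [Finset.sum_coe_sort F (fun i => B (π i w))]
        abel
      -- step 1
      have s1 : CH μ' S' (fun w => (Br w, c' w)) ≤ CH μ' S c' := by
        have b1 : CH μ' S' (fun w => (Br w, c' w)) ≤ CH μ' S (fun w => (Br w, c' w)) := by
          refine E2.1 Ω' _ _ _ μ' _ _ _ h0' ?_
          intro w w' g1 g2 he
          simp only [Prod.mk.injEq] at he
          rw [hS' w, hS' w', he.1, he.2.1]
        have b2 := (E1 Ω' 𝔾 𝔾 γ μ' S Br c' h0').2.2
        linarith
      -- step 2
      have s2 : MI μ' S' Br c' ≤ (CH μ' Br c' - CH μ' Br (fun w => (T w, c' w))) +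
          (CH μ' Br (fun w => (T w, c' w)) - CH μ' Br (fun w => (V w, T w, c' w))) := by
        rw [kv_symm E1 E2 h0' S' Br c']
        have b1 : CH μ' Br (fun w => (V w, T w, c' w)) ≤ CH μ' Br (fun w => (S' w, c' w)) := by
          refine E2.2.1 Ω' _ _ _ μ' _ _ _ h0' ?_
          intro w w' g1 g2 he
          simp only [Prod.mk.injEq] at he ⊢
          refine ⟨?_, he.2.2⟩
          rw [hS'2 w, hS'2 w', he.1, he.2.1]
        unfold MI
        linarith
      -- first term
      have s3 : CH μ' Br c' - CH μ' Br (fun w => (T w, c' w)) ≤ h1 - h2 := by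
        have b0 := kv_symm E1 E2 h0' Br T c'
        unfold MI at b0
        have b1 : CH μ' T c' = h1 := hone r
        have b2 : h2 ≤ CH μ' T (fun w => (Br w, c' w)) := by
          have b3 : CH μ' (fun w => Λ (π r w)) (fun w => (X (π r w), c (π r w))) = h2 :=
            hpush _ _ Λ (fun ω => (X ω, c ω)) r
          rw [← b3]
          have b4 : CH μ' (fun w => Λ (π r w)) (fun w => (X (π r w), c (π r w))) ≤
              CH μ' T (fun w => (X (π r w), c (π r w))) := by
            refine E2.1 Ω' _ _ _ μ' _ _ _ h0' ?_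
            intro w w' g1 g2 he
            simp only [Prod.mk.injEq] at he
            have e1 : B (π r w) = B (π r w') := by
              refine hB _ _ (hI.su w g1 r) (hI.su w' g2 r) ?_
              simp only [Prod.mk.injEq]
              exact he.2
            have e2 : Λ (π r0 w) + B (π r w) = Λ (π r0 w') + B (π r w') := he.1
            rw [e1] at e2
            have e3 := add_right_cancel e2
            show Λ (π r w) = Λ (π r w')
            rw [hΛ w g1 r, hΛ w' g2 r]
            exact e3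
          have b5 : CH μ' T (fun w => (X (π r w), c (π r w))) ≤ CH μ' T (fun w => (Br w, c' w)) := by
            refine E2.2.1 Ω' _ _ _ μ' _ _ _ h0' ?_
            intro w w' g1 g2 he
            simp only [Prod.mk.injEq] at he ⊢
            refine ⟨?_, ?_⟩
            · refine hB _ _ (hI.su w g1 r) (hI.su w' g2 r) ?_
              simp only [Prod.mk.injEq]
              exact he
            · show c (π r0 w) = c (π r0 w')
              rw [← hc w g1 r, ← hc w' g2 r]
              exact he.2
          linarith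
        linarith
      -- second term
      have s4 : CH μ' Br (fun w => (T w, c' w)) - CH μ' Br (fun w => (V w, T w, c' w)) ≤
          F.card * I0 := by
        have b0 := kv_symm E1 E2 h0' Br V (fun w => (T w, c' w))
        unfold MI at b0
        have b1 := (E1 Ω' (F → 𝔾) 𝔾 γ μ' V T c' h0').2.2
        have b2 : CH μ' V c' ≤ F.card * CH μ B c := by
          refine (kv_sub E1 E2 h0' F (fun i w => B (π i w)) c').trans (le_of_eq ?_)
          rw [← nsmul_eq_mul, ← Finset.sum_const]
          refine Finset.sum_congr rfl fun i _ => ?_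
          rw [← hpush _ _ B c i]
          exact (hcond _ _ i).symm
        have b3 : CH μ' V (fun w => (X (π r w), K (π r0 w))) ≤
            CH μ' V (fun w => (Br w, T w, c' w)) := by
          refine E2.2.1 Ω' _ _ _ μ' _ _ _ h0' ?_
          intro w w' g1 g2 he
          simp only [Prod.mk.injEq] at he ⊢
          have ec : c (π r0 w) = c (π r0 w') := hKc _ _ (hI.su w g1 r0) (hI.su w' g2 r0) he.2
          have eL : Λ (π r0 w) = Λ (π r0 w') := hKΛ _ _ (hI.su w g1 r0) (hI.su w' g2 r0) he.2
          have eB : B (π r w) = B (π r w') := by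
            refine hB _ _ (hI.su w g1 r) (hI.su w' g2 r) ?_
            simp only [Prod.mk.injEq]
            refine ⟨he.1, ?_⟩
            rw [hc w g1 r, hc w' g2 r]
            exact ec
          refine ⟨eB, ?_, ec⟩
          show Λ (π r0 w) + B (π r w) = Λ (π r0 w') + B (π r w')
          rw [eL, eB]
        have b4 : CH μ' V (fun w => (X (π r w), K (π r0 w))) = F.card * CH μ B K := by
          have hd : Disjoint F {r} := Finset.disjoint_singleton_right.2 hr
          have b5 := hI.ind 𝔾 ξ F {r} (fun _ => B) (fun _ => X) r0 hd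
          rw [Finset.sum_const, nsmul_eq_mul] at b5
          rw [← b5]
          apply le_antisymm
          · refine E2.2.1 Ω' _ _ _ μ' _ _ _ h0' ?_
            intro w w' g1 g2 he
            simp only [Prod.mk.injEq] at he ⊢
            refine ⟨?_, he.2⟩
            funext j
            have hj : j.1 = r := Finset.mem_singleton.1 j.2
            rw [hj]
            exact he.1
          · refine E2.2.1 Ω' _ _ _ μ' _ _ _ h0' ?_
            intro w w' g1 g2 he
            simp only [Prod.mk.injEq] at he ⊢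
            exact ⟨congrFun he.1 ⟨r, Finset.mem_singleton_self r⟩, he.2⟩
        have b6 : CH μ B c - CH μ B K ≤ I0 := by
          have d1 := kv_dp E1 E2 h0 B X K c hB
          have d2 : CH μ B K = CH μ B (fun ω => (K ω, c ω)) := by
            apply le_antisymm
            · refine E2.2.1 Ω _ _ _ μ _ _ _ h0 ?_
              intro ω ω' g1 g2 he
              show (K ω, c ω) = (K ω', c ω')
              have e1 : K ω = K ω' := he
              rw [e1, hKc ω ω' g1 g2 he]
            · refine E2.2.1 Ω _ _ _ μ _ _ _ h0 ?_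
              intro ω ω' g1 g2 he
              exact congrArg Prod.fst he
          rw [d2]
          unfold MI at d1 hI0
          rw [hI0]
          exact d1
        have hcard : (0 : ℝ) ≤ F.card := Nat.cast_nonneg _
        have b7 := mul_le_mul_of_nonneg_left b6 hcard
        nlinarith
      have s5 : CH μ' S' c' ≤ CH μ' S c' + (h1 - h2) + F.card * I0 := by
        unfold MI at s2
        linarith
      have ih' : CH μ' S c' ≤ h1 + ((F.card : ℝ) - 1) * ((h1 - h2) + F.card * I0) := ih
      have hcard : (0 : ℝ) ≤ F.card := Nat.cast_nonneg _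
      show CH μ' S' c' ≤ _
      rw [Finset.card_cons]
      push_cast
      nlinarith [mul_nonneg hcard hI0n]
  have fin1 := main F hF
  have fin2 : CH μ' (fun w => ∑ r ∈ F, B (π r w)) (fun w => K (π r0 w)) ≤
      CH μ' (fun w => Λ (π r0 w) + ∑ r ∈ F, B (π r w)) (fun w => c (π r0 w)) := by
    have b1 : CH μ' (fun w => ∑ r ∈ F, B (π r w)) (fun w => K (π r0 w)) ≤
        CH μ' (fun w => Λ (π r0 w) + ∑ r ∈ F, B (π r w)) (fun w => K (π r0 w)) := by
      refine E2.1 Ω' _ _ _ μ' _ _ _ h0' ?_
      intro w w' g1 g2 he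
      simp only [Prod.mk.injEq] at he
      have eL : Λ (π r0 w) = Λ (π r0 w') := hKΛ _ _ (hI.su w g1 r0) (hI.su w' g2 r0) he.2
      have e := he.1
      rw [eL] at e
      exact add_left_cancel e
    have b2 : CH μ' (fun w => Λ (π r0 w) + ∑ r ∈ F, B (π r w)) (fun w => K (π r0 w)) ≤
        CH μ' (fun w => Λ (π r0 w) + ∑ r ∈ F, B (π r w)) (fun w => c (π r0 w)) := by
      refine E2.2.1 Ω' _ _ _ μ' _ _ _ h0' ?_
      intro w w' g1 g2 he
      exact hKc _ _ (hI.su w g1 r0) (hI.su w' g2 r0) he
    linarith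
  have hcard : (0 : ℝ) ≤ F.card := Nat.cast_nonneg _
  nlinarith [mul_nonneg hcard hI0n]

end

end Pool.Agent.Helper66.HK
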