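import Pool.Agent.Helper66.HK.Stmts

/-! UPW: upper bound on a window. -/

namespace Pool.Agent.Helper66.HK

open Finset Pool.Agent.Helper69.RK

noncomputable section

theorem upw_mono {m n : ℕ} {η η' : ℝ} (h : η ≤ η') {Ω ζ : Type} [Fintype Ω] {μ : Ω → ℝ} {Z : Ω → ζ}
    {a x : Ω → Fin m → ℝ} {t : Ω → ℝ} (H : HS m n η μ Z a x t) : HS m n η' μ Z a x t := by
  have hn : (0 : ℝ) ≤ n := Nat.cast_nonneg n
  have h1 : η * n ≤ η' * n := mul_le_mul_of_nonneg_right h hn
  exact ⟨H.nn, H.ms, H.ab, H.xb, H.tb, fun k hk => (H.st k hk).trans h1,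
    le_trans (by linarith) H.h1, H.h2.trans h1⟩

theorem upw_dv_dv {m : ℕ} (k k' : ℕ) (v : Fin m → ℤ) : dv k (dv k' v) = dv (k + k') v := by
  funext i
  unfold dv
  rw [Int.ediv_ediv_of_nonneg (by positivity), ← pow_add, add_comm]

theorem upw_cel_dv {m : ℕ} (n l : ℕ) (h : l ≤ n) (y : Fin m → ℝ) :
    dv (n - l) (cel n y) = cel l y := by
  funext i
  unfold dv cel
  have h1 : ((2 : ℤ) ^ (n - l)) = ((2 ^ (n - l) : ℕ) : ℤ) := by push_cast; rfl
  rw [h1, ← Int.floor_div_natCast]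
  congr 1
  push_cast
  have h2 : (2 : ℝ) ^ n = 2 ^ l * 2 ^ (n - l) := by
    rw [← pow_add]
    congr 1
    omega
  rw [h2]
  field_simp

/-- telescoping for a tower of variables -/
theorem upw_tower (E1 : ST_E1) (E2 : ST_E2) {Ω β γ : Type} [Fintype Ω] {μ : Ω → ℝ}
    (h0 : ∀ ω, 0 ≤ μ ω) (V : ℕ → Ω → β) (g : Ω → γ) (M : ℕ)
    (hV : ∀ i, i < M → Dep μ (fun ω => (V (i + 1) ω, g ω)) (V i)) :
    CH μ (V M) g = CH μ (V 0) g + ∑ i ∈ range M, CH μ (V (i + 1)) (fun ω => (V i ω, g ω)) := by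
  induction M with
  | zero => simp
  | succ M ih =>
    rw [sum_range_succ, ← add_assoc, ← ih (fun i hi => hV i (by omega))]
    have e1 := (E1 Ω β β γ μ (V M) (V (M + 1)) g h0).2.1
    have e2 : CH μ (V (M + 1)) g ≤ CH μ (fun ω => (V M ω, V (M + 1) ω)) g := by
      refine E2.1 Ω _ _ _ μ _ _ _ h0 ?_
      intro ω ω' _ _ he
      simp only [Prod.mk.injEq] at he
      exact he.1.2
    have e3 : CH μ (fun ω => (V M ω, V (M + 1) ω)) g ≤ CH μ (V (M + 1)) g := by
      refine E2.1 Ω _ _ _ μ _ _ _ h0 ?_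
      intro ω ω' g1 g2 he
      have h := hV M (by omega) ω ω' g1 g2 he
      simp only [Prod.mk.injEq] at he ⊢
      exact ⟨h, he.1⟩
    linarith

theorem st_UPW (HL : ST_LOW) (HF : ST_FLO) (E1 : ST_E1) (E2 : ST_E2) (E3 : ST_E3) : ST_UPW := by
  intro m M γ hM hW ε hε
  have hMr : (1 : ℝ) ≤ M := by exact_mod_cast hM
  have hM0 : (0 : ℝ) < M := by linarith
  obtain ⟨η₁, hη₁, n₁, H₁⟩ := HL m M γ hM hW (ε / (4 * M)) (by positivity)
  set Cst : ℝ := 4 * m * M + |γ| * M with hCst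
  have hCst0 : 0 ≤ Cst := by positivity
  refine ⟨min η₁ (ε / 4), lt_min hη₁ (by linarith), max n₁ ⌈4 * Cst / ε⌉₊, ?_⟩
  intro n hn Ω ζ κ _ μ Z Q a x t Λ HSys hQt hMI hY
  have hn1 : n₁ ≤ n := le_trans (le_max_left _ _) hn
  have hn2 : 4 * Cst / ε ≤ n := by
    have := le_trans (le_max_right _ _) hn
    exact (Nat.le_ceil _).trans (by exact_mod_cast this)
  have hn2' : Cst ≤ ε / 4 * n := by
    rw [div_le_iff₀ hε] at hn2
    linarith
  have hnn : (0 : ℝ) ≤ n := Nat.cast_nonneg n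
  have h0 := HSys.nn
  have h1 := HSys.ms
  set w : ℕ := n / M with hw
  have hwM : w * M ≤ n := Nat.div_mul_le_self n M
  have hwM2 : n < w * M + M := by
    have := Nat.lt_div_mul_add (a := n) (b := M) (by omega)
    exact this
  set Y : Ω → Fin m → ℤ := fun ω => Yn n (t ω) (a ω) (x ω) (Λ ω) with hYdef
  -- levels
  let V : ℕ → Ω → Fin m → ℤ := fun i ω => dv (n - i * w) (Y ω)
  let U : ℕ → Ω → Fin m → ℤ := fun i ω => cel (i * w) (x ω)
  have hlev : ∀ i, i < M → (i + 1) * w ≤ n := by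
    intro i hi
    calc (i + 1) * w ≤ M * w := Nat.mul_le_mul_right w (by omega)
      _ = w * M := Nat.mul_comm _ _
      _ ≤ n := hwM
  have hη1 : min η₁ (ε / 4) ≤ η₁ := min_le_left _ _
  have hη2 : min η₁ (ε / 4) ≤ ε / 4 := min_le_right _ _
  set η : ℝ := min η₁ (ε / 4) with hηdef
  have HS1 : HS m n η₁ μ Z a x t := upw_mono hη1 HSys
  have hMI1 : MI μ (fun ω => (a ω, x ω)) (fun ω => (Q ω, Λ ω)) Z ≤ η₁ * n :=
    hMI.trans (mul_le_mul_of_nonneg_right hη1 hnn)
  let T : ℕ → ℝ := fun i => CH μ (V (i + 1)) (fun ω => (V i ω, Q ω, Z ω))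
  let e : ℕ → ℝ := fun i => CH μ (U (i + 1)) (fun ω => (U i ω, Z ω)) - γ * w
  -- lower bounds of the terms
  have hlow : ∀ i, i < M → e i - ε / (4 * M) * n - 3 * m ≤ T i := by
    intro i hi
    have a1 := H₁ n hn1 Ω ζ (κ × (Fin m → ℤ)) μ Z (fun ω => (Q ω, Λ ω)) a x t Λ HS1
      (by
        intro ω ω' g1 g2 he
        simp only [Prod.mk.injEq] at he
        exact hQt ω ω' g1 g2 he.1)
      (by
        intro ω ω' g1 g2 he
        simp only [Prod.mk.injEq] at he
        exact he.2) hMI1 i hi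
    -- FLO
    have hlw : i * w + w ≤ n := by
      have := hlev i hi
      rw [Nat.add_mul, Nat.one_mul] at this
      exact this
    have a2 := (HF m n (i * w) w Ω κ μ Q a x t t Λ Λ h0 h1 hlw HSys.ab HSys.xb
      (by
        intro ω ω' g1 g2 he
        have := hQt ω ω' g1 g2 he
        simp only [Prod.mk.injEq]
        exact ⟨this, this⟩)
      (by
        intro ω _
        simp) HSys.tb).2.1
    -- the common condition
    let D : Ω → ((κ × (Fin m → ℤ)) × ((Fin m → ℤ) × (Fin m → ℤ)) × ζ) :=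
      fun ω => ((Q ω, Λ ω), xi (i * w) (a ω) (x ω), Z ω)
    have b1 : CH μ (V i) D ≤ 3 * m := by
      refine le_trans ?_ a2
      refine E2.2.1 Ω _ _ _ μ _ _ _ h0 ?_
      intro ω ω' g1 g2 he
      simp only [D, Prod.mk.injEq] at he
      simp only [Prod.mk.injEq]
      refine ⟨?_, he.2.1, he.1.1⟩
      rw [he.1.2]
    have b2 : CH μ (V (i + 1)) D ≤ CH μ (fun ω => (V i ω, V (i + 1) ω)) D := by
      refine E2.1 Ω _ _ _ μ _ _ _ h0 ?_
      intro ω ω' _ _ he
      simp only [Prod.mk.injEq] at he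
      exact he.1.2
    have b3 := (E1 Ω (Fin m → ℤ) (Fin m → ℤ) _ μ (V i) (V (i + 1)) D h0).2.1
    have b4 : CH μ (V (i + 1)) (fun ω => (V i ω, D ω)) ≤ T i := by
      refine E2.2.1 Ω _ _ _ μ _ _ _ h0 ?_
      intro ω ω' _ _ he
      simp only [D, Prod.mk.injEq] at he ⊢
      exact ⟨he.1, he.2.1.1, he.2.2.2⟩
    have a1' : e i - ε / (4 * M) * n ≤ CH μ (V (i + 1)) D := a1
    linarith
  -- towers
  have hVdep : ∀ (i : ℕ) (β : Type) (g : Ω → β), i < M →
      Dep μ (fun ω => (V (i + 1) ω, g ω)) (V i) := by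
    intro i β g hi ω ω' _ _ he
    simp only [Prod.mk.injEq] at he
    have hk : n - i * w = w + (n - (i + 1) * w) := by
      have hl := hlev i hi
      have ee : (i + 1) * w = i * w + w := by ring
      generalize (i + 1) * w = p at hl ee ⊢
      generalize i * w = q at ee ⊢
      clear_value w
      omega
    show dv (n - i * w) (Y ω) = dv (n - i * w) (Y ω')
    rw [hk, ← upw_dv_dv, ← upw_dv_dv]
    exact congrArg (dv w) he.1
  have hUdep : ∀ (i : ℕ) (β : Type) (g : Ω → β), i < M →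
      Dep μ (fun ω => (U (i + 1) ω, g ω)) (U i) := by
    intro i β g hi ω ω' _ _ he
    simp only [Prod.mk.injEq] at he
    show cel (i * w) (x ω) = cel (i * w) (x ω')
    have hle : i * w ≤ (i + 1) * w := Nat.mul_le_mul_right w (by omega)
    rw [← upw_cel_dv ((i + 1) * w) (i * w) hle, ← upw_cel_dv ((i + 1) * w) (i * w) hle]
    exact congrArg (dv _) he.1
  have tV := upw_tower E1 E2 h0 V (fun ω => (Q ω, Z ω)) M (fun i hi => hVdep i _ _ hi)
  have tU := upw_tower E1 E2 h0 U Z M (fun i hi => hUdep i _ _ hi)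
  -- cel 0 x
  have hU0 : CH μ (U 0) Z = 0 := by
    refine E2.2.2 Ω _ _ μ _ _ h0 ?_
    intro ω ω' _ _ _
    funext i
    show cel (0 * w) (x ω) i = cel (0 * w) (x ω') i
    have hz : ∀ ω, cel (0 * w) (x ω) i = 0 := by
      intro ω
      unfold cel
      rw [Nat.zero_mul, pow_zero, one_mul, Int.floor_eq_zero_iff]
      exact ⟨(HSys.xb ω i).1, (HSys.xb ω i).2⟩
    rw [hz, hz]
  -- the rest of x
  have hx : CH μ (fun ω => cel n (x ω)) Z ≤ CH μ (U M) Z + m * M := by
    have a1 := (E1 Ω (Fin m → ℤ) (Fin m → ℤ) ζ μ (U M) (fun ω => cel n (x ω)) Z h0).2.1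
    have a2 : CH μ (fun ω => cel n (x ω)) Z ≤ CH μ (fun ω => (U M ω, cel n (x ω))) Z := by
      refine E2.1 Ω _ _ _ μ _ _ _ h0 ?_
      intro ω ω' _ _ he
      simp only [Prod.mk.injEq] at he
      exact he.1.2
    have a3 : CH μ (fun ω => cel n (x ω)) (fun ω => (U M ω, Z ω)) ≤
        m * Real.logb 2 (((2 : ℝ) ^ M - 1) + 1) * mass μ := by
      refine E3.2 Ω _ m μ _ _ _ h0 ?_ ?_
      · have : (1 : ℝ) ≤ 2 ^ M := one_le_pow₀ (by norm_num)
        linarith
      · intro ω ω' _ _ he i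
        simp only [Prod.mk.injEq] at he
        have hc : cel (M * w) (x ω) i = cel (M * w) (x ω') i := congrFun he.1 i
        have hMw : M * w ≤ n := by rw [Nat.mul_comm]; exact hwM
        have e1 := congrFun (upw_cel_dv n (M * w) hMw (x ω)) i
        have e2 := congrFun (upw_cel_dv n (M * w) hMw (x ω')) i
        rw [← e1, ← e2] at hc
        unfold dv at hc
        have hp : (0 : ℤ) < 2 ^ (n - M * w) := by positivity
        have f1 := Int.emod_add_mul_ediv (cel n (x ω) i) (2 ^ (n - M * w))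
        have f2 := Int.emod_add_mul_ediv (cel n (x ω') i) (2 ^ (n - M * w))
        have f3 := Int.emod_nonneg (cel n (x ω) i) hp.ne'
        have f4 := Int.emod_nonneg (cel n (x ω') i) hp.ne'
        have f5 := Int.emod_lt_of_pos (cel n (x ω) i) hp
        have f6 := Int.emod_lt_of_pos (cel n (x ω') i) hp
        have hk : n - M * w ≤ M := by
          have : M * w = w * M := Nat.mul_comm _ _
          omega
        have hpp : (2 : ℤ) ^ (n - M * w) ≤ 2 ^ M := pow_le_pow_right₀ (by norm_num) hk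
        have g1 : |cel n (x ω) i - cel n (x ω') i| ≤ 2 ^ M - 1 := by
          rw [hc] at f1
          rw [abs_le]
          constructor <;> linarith [Int.add_one_le_of_lt f5, Int.add_one_le_of_lt f6]
        have g2 : ((|cel n (x ω) i - cel n (x ω') i| : ℤ) : ℝ) ≤ ((2 ^ M - 1 : ℤ) : ℝ) := by
          exact_mod_cast g1
        push_cast at g2
        exact g2
    rw [h1, mul_one, sub_add_cancel] at a3
    have a4 : Real.logb 2 ((2 : ℝ) ^ M) = M := by
      rw [Real.logb_pow, Real.logb_self_eq_one (by norm_num), mul_one]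
    rw [a4] at a3
    linarith
  -- Y at level M
  have hVM : CH μ (V M) (fun ω => (Q ω, Z ω)) ≤ CH μ Y (fun ω => (Q ω, Z ω)) := by
    refine E2.1 Ω _ _ _ μ _ _ _ h0 ?_
    intro ω ω' _ _ he
    simp only [Prod.mk.injEq] at he
    show dv _ (Y ω) = dv _ (Y ω')
    rw [he.1]
  have hY' : CH μ Y (fun ω => (Q ω, Z ω)) ≤ CH μ (fun ω => cel n (x ω)) Z - (γ - η) * n := hY
  have hγ : γ * (M * w) - γ * n ≤ |γ| * M := by
    have c1 : (M : ℝ) * w ≤ n := by
      have : M * w ≤ n := by rw [Nat.mul_comm]; exact hwM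
      exact_mod_cast this
    have c2 : (n : ℝ) ≤ M * w + M := by
      have : n ≤ M * w + M := by rw [Nat.mul_comm]; omega
      exact_mod_cast this
    have c3 := neg_abs_le γ
    have c4 : 0 ≤ (n : ℝ) - M * w := by linarith
    have c5 : γ * (M * w) - γ * n = -γ * (n - M * w) := by ring
    rw [c5]
    calc -γ * (n - M * w) ≤ |γ| * (n - M * w) :=
          mul_le_mul_of_nonneg_right (neg_le_abs γ) c4
      _ ≤ |γ| * M := mul_le_mul_of_nonneg_left (by linarith) (abs_nonneg _)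
  have hsumE : ∑ i ∈ range M, e i =
      ∑ i ∈ range M, CH μ (U (i + 1)) (fun ω => (U i ω, Z ω)) - γ * (M * w) := by
    simp only [e]
    rw [Finset.sum_sub_distrib, Finset.sum_const, card_range, nsmul_eq_mul]
    ring
  have hηn : η * n ≤ ε / 4 * n := mul_le_mul_of_nonneg_right hη2 hnn
  have htot : CH μ (V 0) (fun ω => (Q ω, Z ω)) + ∑ i ∈ range M, T i ≤
      ∑ i ∈ range M, e i + |γ| * M + m * M + ε / 4 * n := by
    have : CH μ (V M) (fun ω => (Q ω, Z ω)) =
      CH μ (V 0) (fun ω => (Q ω, Z ω)) + ∑ i ∈ range M, T i := tV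
    rw [← this, hsumE]
    rw [hU0, zero_add] at tU
    rw [← tU]
    linarith
  have hV0 : 0 ≤ CH μ (V 0) (fun ω => (Q ω, Z ω)) := (E1 Ω _ (Fin m → ℤ) _ μ _ (V 0) _ h0).1
  set δ : ℝ := ε / (4 * M) * n + 3 * m with hδ
  have hδ0 : 0 ≤ δ := by positivity
  have hMδ : M * δ = ε / 4 * n + 3 * m * M := by
    rw [hδ]
    field_simp
  have hd : ∀ i ∈ range M, 0 ≤ T i - e i + δ := by
    intro i hi
    have := hlow i (mem_range.1 hi)
    linarith
  have hsumd : ∑ i ∈ range M, (T i - e i + δ) =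
      ∑ i ∈ range M, T i - ∑ i ∈ range M, e i + M * δ := by
    rw [Finset.sum_add_distrib, Finset.sum_sub_distrib, Finset.sum_const, card_range, nsmul_eq_mul]
  have hbound : CH μ (V 0) (fun ω => (Q ω, Z ω)) + ∑ i ∈ range M, (T i - e i + δ) ≤
      3 * (ε / 4 * n) := by
    rw [hsumd, hMδ]
    have : 4 * m * M + |γ| * M ≤ ε / 4 * n := hn2'
    linarith
  refine ⟨?_, ?_⟩
  · have hs : 0 ≤ ∑ i ∈ range M, (T i - e i + δ) := Finset.sum_nonneg hd
    have hV0eq : CH μ (V 0) (fun ω => (Q ω, Z ω)) =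
        CH μ (fun ω => dv n (Yn n (t ω) (a ω) (x ω) (Λ ω))) (fun ω => (Q ω, Z ω)) := by
      simp only [V, Nat.zero_mul, Nat.sub_zero, hYdef]
    rw [← hV0eq]
    have : 0 ≤ ε / 4 * n := by positivity
    linarith
  · intro i hi
    have hs := Finset.single_le_sum hd (mem_range.2 hi)
    have : T i ≤ e i + ε * n := by
      have h4 : 0 ≤ ε / 4 * n := by positivity
      linarith
    have hT : T i = CH μ (fun ω => dv (n - (i + 1) * (n / M)) (Yn n (t ω) (a ω) (x ω) (Λ ω)))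
          (fun ω => (dv (n - i * (n / M)) (Yn n (t ω) (a ω) (x ω) (Λ ω)), Q ω, Z ω)) := rfl
    rw [← hT]
    exact this

end

end Pool.Agent.Helper66.HK
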